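import Pool.Agent.H73.CBE.Stmts

/-!
# Board CBE, row CHI (helper25)

On the segment from `z₀` to `z` the function `A (fᵏ ·)`, `A w = ‖⟨e, w⟩‖² / ‖w‖²`, has derivative at
most `2/3`, and it is `1` at `z₀`.
-/

set_option autoImplicit false

namespace Pool.CBE

theorem chi_q_le (h1 : PERStmt) {n : ℕ} (z v : E n) (hz : z ≠ 0) : q z v ≤ ‖v‖ / ‖z‖ := by
  have h := h1.2.2.1 n z v 0 hz
  rw [zero_smul, sub_zero] at h
  unfold q
  have hz' : 0 < ‖z‖ := norm_pos_iff.mpr hz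
  exact div_le_div_of_nonneg_right h hz'.le

theorem CHI_thm (h1 : PERStmt) (h2 : ITRStmt) (h3 : ADRStmt) : CHIStmt := by
  intro n f d η C θ a hf k z₀ z hz₀ hz
  obtain ⟨hcd, hne, -, hq⟩ := h2 n f d η C θ a hf k
  have hθ : 1 ≤ θ ^ k := one_le_pow₀ hf.hθ
  have hθ0 : 0 < θ ^ k := lt_of_lt_of_le one_pos hθ
  have hsm : ‖z - z₀‖ ≤ 1 / 8 := by
    refine hz.trans ?_
    rw [div_le_iff₀ hθ0]
    nlinarith
  -- norms on the segment
  have hseg : ∀ t : ℝ, 0 ≤ t → t ≤ 1 → 3 / 8 ≤ ‖z₀ + t • (z - z₀)‖ := by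
    intro t ht0 ht1
    have ha : ‖z₀‖ ≤ ‖z₀ + t • (z - z₀)‖ + ‖t • (z - z₀)‖ := by
      have := norm_sub_le (z₀ + t • (z - z₀)) (t • (z - z₀))
      simpa using this
    have hb : ‖t • (z - z₀)‖ ≤ 1 / 8 := by
      rw [norm_smul, Real.norm_eq_abs, abs_of_nonneg ht0]
      nlinarith [norm_nonneg (z - z₀)]
    linarith
  have hz0 : z ≠ 0 := by
    have h := hseg 1 zero_le_one le_rfl
    rw [one_smul, add_sub_cancel] at h
    intro h0
    rw [h0, norm_zero] at h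
    norm_num at h
  refine ⟨hz0, ?_⟩
  have hz₀0 : z₀ ≠ 0 := by
    intro h0
    rw [h0, norm_zero] at hz₀
    norm_num at hz₀
  set w₀ : E n := f^[k] z₀ with hw₀
  have hw₀0 : w₀ ≠ 0 := hne z₀ hz₀0
  have hw₀n : 0 < ‖w₀‖ := norm_pos_iff.mpr hw₀0
  set e : E n := (‖w₀‖⁻¹ : ℝ) • w₀ with he
  have hen : ‖e‖ = 1 := by
    rw [he, norm_smul, norm_inv, norm_norm]
    exact inv_mul_cancel₀ hw₀n.ne'
  set A : E n → ℝ := fun y : E n => ‖(inner ℂ e y : ℂ)‖ ^ 2 / ‖y‖ ^ 2 with hA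
  -- the value at `z₀`
  have hA0 : A w₀ = 1 := by
    have hw : w₀ = ((‖w₀‖ : ℝ)) • e := by
      rw [he, smul_smul, mul_inv_cancel₀ hw₀n.ne', one_smul]
    have hi : ‖(inner ℂ e w₀ : ℂ)‖ = ‖w₀‖ := by
      have h5 : (inner ℂ e w₀ : ℂ) = ((‖w₀‖ : ℝ) : ℂ) * inner ℂ e e := by
        conv_lhs => rw [hw]
        rw [← Complex.coe_smul, inner_smul_right]
      rw [h5, norm_mul, inner_self_eq_norm_sq_to_K, hen]
      simp
    simp only [hA]
    rw [hi]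
    exact div_self (by positivity)
  -- the curve
  have hderiv : ∀ t ∈ Set.Icc (0 : ℝ) 1,
      HasDerivWithinAt (fun s : ℝ => A (f^[k] (z₀ + s • (z - z₀))))
        (fderiv ℝ A (f^[k] (z₀ + t • (z - z₀)))
          (fderiv ℂ (f^[k]) (z₀ + t • (z - z₀)) (z - z₀))) (Set.Icc (0 : ℝ) 1) t := by
    intro t ht
    have hn0 : z₀ + t • (z - z₀) ≠ 0 := by
      intro h0
      have := hseg t ht.1 ht.2
      rw [h0, norm_zero] at this
      norm_num at this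
    have hA' : HasFDerivAt A (fderiv ℝ A (f^[k] (z₀ + t • (z - z₀)))) (f^[k] (z₀ + t • (z - z₀))) :=
      ((h3 n e (f^[k] (z₀ + t • (z - z₀))) hen (hne _ hn0)).1).hasFDerivAt
    have hF : HasFDerivAt (f^[k]) ((fderiv ℂ (f^[k]) (z₀ + t • (z - z₀))).restrictScalars ℝ)
        (z₀ + t • (z - z₀)) :=
      ((hcd.differentiable (by norm_num)) (z₀ + t • (z - z₀))).hasFDerivAt.restrictScalars ℝ
    have hγ : HasDerivAt (fun s : ℝ => z₀ + s • (z - z₀)) (z - z₀) t := by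
      have h6 := ((hasDerivAt_id t).smul_const (z - z₀)).const_add z₀
      simpa using h6
    have h7 := hA'.comp_hasDerivAt t (hF.comp_hasDerivAt t hγ)
    exact h7.hasDerivWithinAt
  have hbound : ∀ t ∈ Set.Ico (0 : ℝ) 1,
      ‖fderiv ℝ A (f^[k] (z₀ + t • (z - z₀)))
          (fderiv ℂ (f^[k]) (z₀ + t • (z - z₀)) (z - z₀))‖ ≤ 2 / 3 := by
    intro t ht
    have hn := hseg t ht.1 ht.2.le
    have hn0 : z₀ + t • (z - z₀) ≠ 0 := by
      intro h0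
      rw [h0, norm_zero] at hn
      norm_num at hn
    have hnp : 0 < ‖z₀ + t • (z - z₀)‖ := norm_pos_iff.mpr hn0
    have h8 := (h3 n e (f^[k] (z₀ + t • (z - z₀))) hen (hne _ hn0)).2
      (fderiv ℂ (f^[k]) (z₀ + t • (z - z₀)) (z - z₀))
    have h9 := hq (z₀ + t • (z - z₀)) (z - z₀) hn0
    have h10 := chi_q_le h1 (z₀ + t • (z - z₀)) (z - z₀) hn0
    have h11 : ‖z - z₀‖ / ‖z₀ + t • (z - z₀)‖ ≤ ((1 / 8) / θ ^ k) / (3 / 8) := by
      apply div_le_div₀ (by positivity) hz (by norm_num) hn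
    have h12 : θ ^ k * (((1 / 8) / θ ^ k) / (3 / 8)) = 1 / 3 := by
      field_simp
      try norm_num
    have h13 : θ ^ k * q (z₀ + t • (z - z₀)) (z - z₀) ≤ 1 / 3 := by
      rw [← h12]
      exact mul_le_mul_of_nonneg_left (h10.trans h11) hθ0.le
    rw [Real.norm_eq_abs]
    linarith
  have hmv := norm_image_sub_le_of_norm_deriv_le_segment_01' hderiv hbound
  simp only [one_smul, zero_smul, add_zero, add_sub_cancel] at hmv
  rw [← hw₀, hA0, Real.norm_eq_abs, abs_le] at hmv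
  have hfin : 1 / 3 ≤ A (f^[k] z) := by linarith [hmv.1]
  have hwz : 0 < ‖f^[k] z‖ := norm_pos_iff.mpr (hne z hz0)
  simp only [hA] at hfin
  rw [le_div_iff₀ (by positivity)] at hfin
  by_contra hcon
  push Not at hcon
  have h14 : (2 * ‖(inner ℂ e (f^[k] z) : ℂ)‖) ^ 2 < ‖f^[k] z‖ ^ 2 :=
    pow_lt_pow_left₀ hcon (by positivity) two_ne_zero
  nlinarith [sq_nonneg (‖f^[k] z‖), hwz]

end Pool.CBE
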